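import Pool.Agent.H332.LL.Defs

/-! LL-PERT (helper618 for helper332): distinct periodic perturbation. -/

set_option autoImplicit false

namespace Pool.Agent.H618.LLPert

open Pool.Agent.H332.LL

theorem pert : S_pert := by
  intro m z δ hm hz hδ
  have hmZ : (0 : ℤ) < m := by exact_mod_cast hm
  have hmR : (0 : ℝ) < m := by exact_mod_cast hm
  have hper : Function.Periodic z (m : ℤ) := hz
  have hzr : ∀ i : ℤ, z (i % m) = z i := by
    intro i
    have h := hper.sub_zsmul_eq (x := i) (i / m)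
    rw [smul_eq_mul] at h
    rw [Int.emod_def, mul_comm (m : ℤ), h]
  -- the bad values
  let B : Finset ℝ := ((Finset.range m) ×ˢ (Finset.range m)).image
    fun x => (z (x.2 : ℤ) - z (x.1 : ℤ)) / ((x.1 : ℝ) - (x.2 : ℝ))
  obtain ⟨ε, hε, hεB⟩ : ∃ ε ∈ Set.Ioo (0 : ℝ) (δ / m), ε ∉ (B : Set ℝ) := by
    have h1 : (Set.Ioo (0 : ℝ) (δ / m)).Infinite := Set.Ioo_infinite (by positivity)
    exact (h1.sdiff B.finite_toSet).nonempty
  obtain ⟨hε0, hε1⟩ := hε
  refine ⟨fun i => z i + ε * ((i % m : ℤ) : ℝ), ?_, ?_, ?_⟩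
  · intro i
    show z (i + m) + ε * (((i + m) % m : ℤ) : ℝ) = z i + ε * ((i % m : ℤ) : ℝ)
    rw [hz, Int.add_emod_right]
  · intro i
    show |z i + ε * ((i % m : ℤ) : ℝ) - z i| ≤ δ
    have h1 : (0 : ℝ) ≤ ((i % m : ℤ) : ℝ) := by exact_mod_cast Int.emod_nonneg i hmZ.ne'
    have h2 : ((i % m : ℤ) : ℝ) ≤ m := by exact_mod_cast (Int.emod_lt_of_pos i hmZ).le
    have h3 : z i + ε * ((i % m : ℤ) : ℝ) - z i = ε * ((i % m : ℤ) : ℝ) := by ring
    rw [h3, abs_of_nonneg (mul_nonneg hε0.le h1)]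
    calc ε * ((i % m : ℤ) : ℝ) ≤ ε * m := mul_le_mul_of_nonneg_left h2 hε0.le
      _ ≤ δ / m * m := mul_le_mul_of_nonneg_right hε1.le hmR.le
      _ = δ := div_mul_cancel₀ _ hmR.ne'
  · intro i j hij hjm heq
    have heq' : z i + ε * ((i % m : ℤ) : ℝ) = z j + ε * ((j % m : ℤ) : ℝ) := heq
    have hne : i % m ≠ j % m := by
      intro h
      have h1 : (m : ℤ) ∣ j - i := Int.ModEq.dvd h
      have h2 := Int.le_of_dvd (by omega) h1
      omega
    obtain ⟨a, ha⟩ := Int.eq_ofNat_of_zero_le (Int.emod_nonneg i hmZ.ne')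
    obtain ⟨b, hb⟩ := Int.eq_ofNat_of_zero_le (Int.emod_nonneg j hmZ.ne')
    have ha' := Int.emod_lt_of_pos i hmZ
    have hb' := Int.emod_lt_of_pos j hmZ
    have hza := hzr i
    have hzb := hzr j
    rw [ha] at hza ha' hne heq'
    rw [hb] at hzb hb' hne heq'
    have hab : (a : ℝ) - (b : ℝ) ≠ 0 := by
      intro h
      apply hne
      have : (a : ℝ) = b := by linarith
      exact_mod_cast this
    apply hεB
    apply Finset.mem_coe.2
    apply Finset.mem_image.2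
    refine ⟨(a, b), ?_, ?_⟩
    · rw [Finset.mem_product, Finset.mem_range, Finset.mem_range]
      exact ⟨by exact_mod_cast ha', by exact_mod_cast hb'⟩
    · show (z (b : ℤ) - z (a : ℤ)) / ((a : ℝ) - (b : ℝ)) = ε
      rw [div_eq_iff hab]
      push_cast at heq' hza hzb
      rw [hza, hzb]
      linarith

end Pool.Agent.H618.LLPert
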